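import Pool.Agent.KT3.StmtsM

/-! Squad KT3 (MP_e54c4c_gt), row ANY: moves of the second pair give top triangles (author
helper44). -/

set_option autoImplicit false

namespace Pool.Agent.KT3.H44

open Pool.Agent.PFS Pool.Agent.PFJ Pool.Agent.NBT

theorem any (hSTX : StxStmt) (hLFM : LfmStmt) (hANF : AnfStmt) : AnyStmt := by
  intro n C Γ d q h3 w N hAN φ hφ x hx p hp y hpy hy hyn hφy
  obtain ⟨hIB, -, -, -⟩ := (hANF n C Γ d q h3 w N hAN φ hφ).2.2.2.1 x hx p hp
  obtain ⟨hL, -⟩ := (hLFM n C Γ d h3 w hAN.wl).2 x hx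
  obtain ⟨h1, -, -, h2⟩ := hSTX n C Γ 3 h3.toHI.toHK (up w x) hL.pes 0 2 (by decide)
    (LinearMap.range p) hIB
  have e2 : (up w x) 2 = w 2 := Function.update_of_ne (by decide) _ _
  rw [e2] at h2
  have hw2 : w 2 ≠ 0 := by
    intro h0
    have h3 := hAN.wl.pes.1.pos (fun _ => 1) (fun _ => one_pos)
    have h4 := hAN.wl.pes.1.bd (fun i => if i = 2 then 0 else 1) (fun i => by
      split_ifs
      · exact le_refl _
      · exact zero_le_one) ⟨2, if_pos rfl⟩
    apply h4
    have h5 : ∑ i : Fin 3, (if i = 2 then (0 : ℝ) else 1) • w i = ∑ i : Fin 3, (1 : ℝ) • w i := by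
      refine Finset.sum_congr rfl fun i _ => ?_
      split_ifs with hi
      · rw [hi, h0, smul_zero, smul_zero]
      · rfl
    rw [h5]
    exact h3
  have hφ2 : φ (w 2) = 0 := hφ.zero 2 (by decide)
  have hind : Ind2 y (w 2) := by
    refine ind2_of_ne hw2 fun a ha => ?_
    rw [ha, map_smul, hφ2, smul_zero] at hφy
    exact lt_irrefl _ hφy
  have hcl2 : w 2 ∈ closure C := hAN.wl.pes.1.cl 2
  obtain ⟨h3', h4, h5⟩ := h1 y ⟨y, hpy⟩ (w 2) ⟨w 2, hp.fv⟩ hy hcl2 hind hyn h2
  have e1 : Function.update (Function.update (up w x) 0 y) 2 (w 2) = up w y := by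
    funext i
    by_cases hi2 : i = 2
    · subst hi2
      rw [Function.update_self]
      exact (Function.update_of_ne (by decide) _ _).symm
    · rw [Function.update_of_ne hi2]
      by_cases hi0 : i = 0
      · subst hi0
        rw [Function.update_self]
        exact (Function.update_self (0 : Fin 3) y w).symm
      · rw [Function.update_of_ne hi0]
        have e3 : up w x i = w i := Function.update_of_ne hi0 _ _
        have e4 : up w y i = w i := Function.update_of_ne hi0 _ _
        rw [e3, e4]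
  rw [e1] at h4 h5
  exact ⟨h4, h5, h3'⟩

end Pool.Agent.KT3.H44
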