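import Pool.Agent.KT3.StmtsC

/-! Squad KT3 (MP_e54c4c_gt), row REG: a regular element for triangles (author helper44). -/

set_option autoImplicit false

namespace Pool.Agent.KT3.H44

open Pool.Agent.PFS Pool.Agent.PFJ Pool.Agent.NBT

theorem reg_ne {n : ℕ} {C : Set (V n)} (hC : PCone C) {w : Fin 3 → V n} (hw : PES C w)
    {x : V n} {i : Fin 3} (hi : i = 1 ∨ i = 2)
    (h : (1 / 4 : ℝ) • (w 1 + w 2) + (x - w i) ∈ closure C) : x ≠ 0 := by
  intro h0
  rw [h0] at h
  rcases hi with rfl | rfl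
  · have h1 : (1 / 4 : ℝ) • (w 1 + w 2) + (0 - w 1) =
        ∑ i, (![0, -(3 / 4), 1 / 4] : Fin 3 → ℝ) i • w i := by
      rw [Fin.sum_univ_three]
      simp only [Matrix.cons_val_zero, Matrix.cons_val_one, Matrix.cons_val]
      module
    rw [h1] at h
    have h2 := nng n C hC (Fin 3) w hw _ h 1
    simp only [Matrix.cons_val_one, Matrix.cons_val_zero] at h2
    linarith
  · have h1 : (1 / 4 : ℝ) • (w 1 + w 2) + (0 - w 2) =
        ∑ i, (![0, 1 / 4, -(3 / 4)] : Fin 3 → ℝ) i • w i := by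
      rw [Fin.sum_univ_three]
      simp only [Matrix.cons_val_zero, Matrix.cons_val_one, Matrix.cons_val]
      module
    rw [h1] at h
    have h2 := nng n C hC (Fin 3) w hw _ h 2
    simp only [Matrix.cons_val] at h2
    linarith

theorem f3a (i : Fin 3) (h0 : i ≠ 0) (h1 : i ≠ 1) : i = 2 := by omega

theorem f3b (i : Fin 3) (h0 : i ≠ 0) (h1 : i ≠ 2) : i = 1 := by omega

theorem f3c (i : Fin 3) (h0 : i ≠ 0) : i = 1 ∨ i = 2 := by omega

theorem reg_scale {n : ℕ} {s c : ℝ} (hs : 0 < s) {u v : V n} (h : s • u = c • v) :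
    u = (c / s) • v := by
  have h1 : u = s⁻¹ • (s • u) := by
    rw [smul_smul, inv_mul_cancel₀ hs.ne', one_smul]
  rw [h1, h, smul_smul]
  congr 1
  field_simp

theorem reg (hSTX : StxStmt) (hXPL : XplStmt) (hZLK : ZlkStmt) (hEPP : EppStmt) (hEPQ : EpqStmt)
    (hEVN : EvnStmt) : RegStmt := by
  intro n C Γ hK T hMC
  obtain ⟨ε1, S1, hε1, hP⟩ := hEPP n 2 C Γ hK T hMC (![2, 1, 0] : Fin 3 → ℝ) 1 (by decide) (by
    intro i h0 h1
    have h2 : i = 2 := f3a i h0 h1
    subst h2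
    simp)
  obtain ⟨ε2, S2, hε2, hQ⟩ := hEPQ n 2 C Γ hK T hMC (![2, 1, 0] : Fin 3 → ℝ) 2 (by decide) (by
    intro i h0 h1
    have h2 : i = 1 := f3b i h0 h1
    subst h2
    simp)
  obtain ⟨w0, z0, g0, s, σ, lam, hσ, hRG⟩ := hXPL n 2 C Γ hK T hMC (![2, 1, 0] : Fin 3 → ℝ) (by
    intro i h0
    have h2 : i = 1 ∨ i = 2 := f3c i h0
    rcases h2 with rfl | rfl
    · simp
    · simp) (min ε1 ε2) (max (max S1 S2) 2) (lt_min hε1 hε2)
  obtain ⟨w, z, L, g, hLG⟩ := hZLK n 2 C Γ hK T hMC _ _ _ _ _ _ _ _ hRG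
  have hσ1 : S1 ≤ σ := le_trans (le_trans (le_max_left _ _) (le_max_left _ _)) hσ
  have hσ2 : S2 ≤ σ := le_trans (le_trans (le_max_right _ _) (le_max_left _ _)) hσ
  have hσ3 : 2 ≤ σ := le_trans (le_max_right _ _) hσ
  obtain ⟨x, μ, hxL, hxC, hgx, hμ1, hμ2, -, hxb⟩ := hP _ σ w z L g s lam (min_le_left _ _) hσ1 hLG
  obtain ⟨y, ν, hyL, hyC, hgy, hν1, hν2, -, hyb⟩ := hQ _ σ w z L g s lam (min_le_right _ _) hσ2 hLG
  have hpes : IsPES C Γ w := hMC.pes w hLG.tw
  have hset : ({0}ᶜ : Finset (Fin 3)) = {1, 2} := by decide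
  have hfS : fS w ({0}ᶜ : Finset (Fin 3)) = w 1 + w 2 := by
    rw [hset]
    exact fS_pair w (by decide)
  have hx0 : x ≠ 0 := by
    have h1 : (1 / 4 : ℝ) • (w 1 + w 2) + (x - w 1) ∈ closure C := by
      rw [← hfS]
      exact hxb
    exact reg_ne hK.toPCone hpes.1 (Or.inl rfl) h1
  have hy0 : y ≠ 0 := by
    have h1 : (1 / 4 : ℝ) • (w 1 + w 2) + (y - w 2) ∈ closure C := by
      rw [← hfS]
      exact hyb
    exact reg_ne hK.toPCone hpes.1 (Or.inr rfl) h1
  have ha0 : (![2, 1, 0] : Fin 3 → ℝ) 0 = 2 := rfl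
  have ha1 : (![2, 1, 0] : Fin 3 → ℝ) 1 = 1 := rfl
  have ha2 : (![2, 1, 0] : Fin 3 → ℝ) 2 = 0 := rfl
  have hμ1' : Real.exp σ / 2 ≤ μ := by
    have h1 := hμ1
    rw [ha1, one_mul] at h1
    exact h1
  have hμ2' : μ ≤ 2 * Real.exp σ := by
    have h1 := hμ2
    rw [ha1, one_mul] at h1
    exact h1
  have hν1' : 1 / 2 ≤ ν := by
    have h1 := hν1
    rw [ha2, zero_mul, Real.exp_zero] at h1
    exact h1
  have hν2' : ν ≤ 2 := by
    have h1 := hν2
    rw [ha2, zero_mul, Real.exp_zero] at h1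
    linarith
  have he4 : 4 < Real.exp σ := by
    have h1 := Real.exp_one_gt_d9
    have h2 : Real.exp 2 = Real.exp 1 * Real.exp 1 := by
      rw [← Real.exp_add]
      norm_num
    have h3 : Real.exp 2 ≤ Real.exp σ := Real.exp_le_exp.2 hσ3
    nlinarith
  have hνμ : ν < μ := by linarith
  obtain ⟨hnx, hny, hind⟩ := hEVN n C Γ hK.toCC g hLG.gm s L x y μ ν hLG.s0 hxL hyL hxC hyC hx0 hy0
    hgx hgy (by linarith) hνμ
  have hbox : IB C w {1, 2} L := by
    have h1 := hLG.box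
    rw [← hset]
    exact h1
  obtain ⟨hS, -, -, -⟩ := hSTX n C Γ 3 hK w hpes 1 2 (by decide) L hbox
  obtain ⟨-, hpes', -⟩ := hS x hxL y hyL hxC hyC hind hnx hny
  refine ⟨_, hpes', g, hLG.gm, ![Real.exp (2 * σ) * lam / s, μ / s, ν / s], ?_, ?_⟩
  · have hs := hLG.s0
    have h01 : μ / s < Real.exp (2 * σ) * lam / s := by
      apply div_lt_div_of_pos_right _ hs
      have h1 : Real.exp (2 * σ) = Real.exp σ * Real.exp σ := by
        rw [← Real.exp_add]
        congr 1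
        ring
      have h2 := hLG.l1
      have h3 : Real.exp (2 * σ) * (1 / 2) ≤ Real.exp (2 * σ) * lam :=
        mul_le_mul_of_nonneg_left h2 (Real.exp_pos _).le
      rw [h1] at h3 ⊢
      nlinarith
    have h12 : ν / s < μ / s := div_lt_div_of_pos_right hνμ hs
    intro i j hij
    fin_cases i <;> fin_cases j
    · rfl
    · exact absurd hij (ne_of_gt h01)
    · exact absurd hij (ne_of_gt (h12.trans h01))
    · exact absurd hij (ne_of_lt h01)
    · rfl
    · exact absurd hij (ne_of_gt h12)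
    · exact absurd hij (ne_of_lt (h12.trans h01))
    · exact absurd hij (ne_of_lt h12)
    · rfl
  · intro i
    have hc : i = 0 ∨ i = 1 ∨ i = 2 := by omega
    rcases hc with rfl | rfl | rfl
    · rw [Function.update_of_ne (by decide), Function.update_of_ne (by decide)]
      have h1 := hLG.e0
      rw [ha0] at h1
      exact reg_scale hLG.s0 h1
    · rw [Function.update_of_ne (by decide), Function.update_self]
      exact reg_scale hLG.s0 hgx
    · rw [Function.update_self]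
      exact reg_scale hLG.s0 hgy

end Pool.Agent.KT3.H44
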